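import Pool.Agent.Q266.VG.Stm

/-!
# Project VG (helper266), job KSIX: the 6 x 6 matrix group is in the variety
-/

set_option autoImplicit false

namespace Pool.Agent.Q121.VG

open Pool.Agent.Q266.VG

open scoped commutatorElement

theorem alg1 {R : Type} [Ring R] [Algebra (ZMod 7) R] (X' Y' a b Z : R) (n m n' m' : ZMod 7) :
    Z - 1 - (n * m' - m * n') • (a * b - b * a)
      = (Z - 1 - ((X' + n • a + m • b) * (Y' + n' • a + m' • b)
          - (Y' + n' • a + m' • b) * (X' + n • a + m • b)))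
        + (X' * Y' - Y' * X' + (X' * (n' • a + m' • b) - (n' • a + m' • b) * X')
          + ((n • a + m • b) * Y' - Y' * (n • a + m • b))) := by
  simp only [add_mul, mul_add, smul_mul_assoc, mul_smul_comm]
  module

theorem alg2 {R : Type} [Ring R] [Algebra (ZMod 7) R] (X Y c : R) (t s : ZMod 7) :
    X * Y - 1 - (t + s) • c = (X - 1) * (Y - 1) + (X - 1 - t • c) + (Y - 1 - s • c) := by
  simp only [sub_mul, mul_sub, one_mul, mul_one]
  module

theorem alg3 {R : Type} [Ring R] [Algebra (ZMod 7) R] (X Y c : R) (t : ZMod 7) (h : Y * X = 1) :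
    Y - 1 - (-t) • c = -(Y - 1) * (X - 1) - (X - 1 - t • c) := by
  have e : -(Y - 1) * (X - 1) = -(Y * X) + Y + X - 1 := by noncomm_ring
  rw [e, h]
  module

theorem alg4 {R : Type} [Ring R] [Algebra (ZMod 7) R] (X' Y' c Z : R) (t s : ZMod 7) :
    Z - 1 = (Z - 1 - ((X' + t • c) * (Y' + s • c) - (Y' + s • c) * (X' + t • c)))
      + ((X' * Y' - Y' * X') + (X' * (s • c) - (s • c) * X')
        + ((t • c) * Y' - Y' * (t • c))) := by
  simp only [add_mul, mul_add, smul_mul_assoc, mul_smul_comm]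
  module

theorem alg5 {R : Type} [Ring R] (X Y : R) :
    X * Y - 1 = (X - 1) * (Y - 1) + (X - 1) + (Y - 1) := by noncomm_ring

theorem alg6 {R : Type} [Ring R] (X Y : R) :
    X * Y - Y * X = (X - 1) * (Y - 1) - (Y - 1) * (X - 1) := by noncomm_ring

theorem alg7 {R : Type} [Ring R] (X : R) :
    X ^ 7 = X * X * (X * X) * (X * X) * X := by noncomm_ring

theorem alg8 {R : Type} [Ring R] [Algebra (ZMod 7) R] (X a b : R) (n m : ZMod 7) :
    X = (X - n • a - m • b) + n • a + m • b := by abel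

theorem alg9 {R : Type} [Ring R] [Algebra (ZMod 7) R] (X c : R) (n : ZMod 7) :
    X = (X - n • c) + n • c := by abel

theorem alg10 {R : Type} [Ring R] [Nontrivial R] [Algebra (ZMod 7) R] (X : R)
    (h : (X - 1) ^ 7 = 0) : X ^ 7 = 1 := by
  have : Fact (Nat.Prime 7) := ⟨by norm_num⟩
  have : CharP R 7 := charP_of_injective_algebraMap (algebraMap (ZMod 7) R).injective 7
  have e := add_pow_char_of_commute (p := 7) (Commute.one_right (X - 1))
  rw [h, one_pow, sub_add_cancel, zero_add] at e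
  exact e

theorem ksix (hU : S_UNI) (hL : S_LEAD) (hF : S_FIL) : S_KSIX := by
  intro a b ha hb ρ hρ
  obtain ⟨-, hU2, -, -⟩ := hU
  -- everything is in `1 + N^1`
  have h1 : ∀ w, IsN 6 1 ((ρ w : Mat 6) - 1) := by
    intro w
    obtain ⟨n, m, h⟩ := hρ w
    rw [alg8 ((ρ w : Mat 6) - 1) a b n m]
    exact ((h.mono (by norm_num)).add (ha.smul n)).add (hb.smul m)
  have hcN : IsN 6 2 (a * b - b * a) := (ha.mul hb).sub (hb.mul ha)
  generalize hc : a * b - b * a = c at hcN
  have hc2 : ∀ (g : F) (t : ZMod 7), IsN 6 3 ((ρ g : Mat 6) - 1 - t • c) →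
      IsN 6 2 ((ρ g : Mat 6) - 1) := by
    intro g t ht
    rw [alg9 ((ρ g : Mat 6) - 1) c t]
    exact (ht.mono (by norm_num)).add (hcN.smul t)
  -- the derived group
  have hD1 : ∀ w ∈ derivedSeries F 1, ∃ t : ZMod 7, IsN 6 3 ((ρ w : Mat 6) - 1 - t • c) := by
    intro w hw
    rw [derivedSeries_succ, Subgroup.commutator_def] at hw
    induction hw using Subgroup.closure_induction with
    | mem x hx =>
      obtain ⟨g, -, h, -, rfl⟩ := hx
      obtain ⟨n, m, hg⟩ := hρ g
      obtain ⟨n', m', hh⟩ := hρ h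
      have key := hL 6 1 1 (ρ g) (ρ h) le_rfl le_rfl (h1 g) (h1 h)
      refine ⟨n * m' - m * n', ?_⟩
      rw [← map_commutatorElement, alg8 ((ρ g : Mat 6) - 1) a b n m,
        alg8 ((ρ h : Mat 6) - 1) a b n' m'] at key
      have hL1 : IsN 6 1 (n • a + m • b) := (ha.smul n).add (hb.smul m)
      have hL2 : IsN 6 1 (n' • a + m' • b) := (ha.smul n').add (hb.smul m')
      rw [← hc, alg1 ((ρ g : Mat 6) - 1 - n • a - m • b) ((ρ h : Mat 6) - 1 - n' • a - m' • b)
        a b _ n m n' m']
      refine (key.mono (by norm_num)).add (((((hg.mul hh).sub (hh.mul hg)).mono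
        (by norm_num)).add ((hg.mul hL2).sub ((hL2.mul hg).mono (by norm_num)))).add ?_)
      exact ((hL1.mul hh).mono (by norm_num)).sub ((hh.mul hL1).mono (by norm_num))
    | one =>
      refine ⟨0, ?_⟩
      rw [map_one, Units.val_one, zero_smul, sub_self, sub_zero]
      exact IsN.zero 6 3
    | mul x y hx hy ihx ihy =>
      obtain ⟨t, ht⟩ := ihx
      obtain ⟨s, hs⟩ := ihy
      refine ⟨t + s, ?_⟩
      rw [map_mul, Units.val_mul, alg2]
      exact ((((hc2 x t ht).mul (hc2 y s hs)).mono (by norm_num)).add ht).add hs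
    | inv x hx ihx =>
      obtain ⟨t, ht⟩ := ihx
      refine ⟨-t, ?_⟩
      have hi := hU2 6 (ρ x) 2 (by norm_num) (hc2 x t ht)
      have hm : (((ρ x)⁻¹ : (Mat 6)ˣ) : Mat 6) * (ρ x : Mat 6) = 1 := Units.inv_mul _
      rw [map_inv, alg3 (ρ x : Mat 6) _ c t hm]
      exact ((hi.neg.mul (hc2 x t ht)).mono (by norm_num)).sub ht
  -- the second derived group
  have hD2 : ∀ w ∈ D2 F, IsN 6 5 ((ρ w : Mat 6) - 1) := by
    intro w hw
    change w ∈ derivedSeries F (1 + 1) at hw
    rw [derivedSeries_succ, Subgroup.commutator_def] at hw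
    induction hw using Subgroup.closure_induction with
    | mem x hx =>
      obtain ⟨g, hg, h, hh, rfl⟩ := hx
      obtain ⟨t, ht⟩ := hD1 g hg
      obtain ⟨s, hs⟩ := hD1 h hh
      have key := hL 6 2 2 (ρ g) (ρ h) (by norm_num) (by norm_num) (hc2 g t ht) (hc2 h s hs)
      rw [← map_commutatorElement, alg9 ((ρ g : Mat 6) - 1) c t,
        alg9 ((ρ h : Mat 6) - 1) c s] at key
      rw [alg4 ((ρ g : Mat 6) - 1 - t • c) ((ρ h : Mat 6) - 1 - s • c) c _ t s]
      refine (key.mono (by norm_num)).add (((((ht.mul hs).sub (hs.mul ht)).mono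
        (by norm_num)).add ((ht.mul (hcN.smul s)).sub ((hcN.smul s).mul ht))).add ?_)
      exact ((hcN.smul t).mul hs).sub (hs.mul (hcN.smul t))
    | one =>
      rw [map_one, Units.val_one, sub_self]
      exact IsN.zero 6 5
    | mul x y hx hy ihx ihy =>
      rw [map_mul, Units.val_mul, alg5]
      exact (((ihx.mul ihy).mono (by norm_num)).add ihx).add ihy
    | inv x hx ihx =>
      rw [map_inv]
      exact hU2 6 (ρ x) 5 (by norm_num) ihx
  refine ⟨?_, hD2⟩
  -- elements of `1 + N^5` commute with everything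
  have hcomm : ∀ u f : F, IsN 6 5 ((ρ u : Mat 6) - 1) → ρ f * ρ u = ρ u * ρ f := by
    intro u f hu
    apply Units.ext
    rw [Units.val_mul, Units.val_mul]
    have e1 : ((ρ f : Mat 6) - 1) * ((ρ u : Mat 6) - 1) = 0 :=
      ((h1 f).mul hu).eq_zero (by norm_num)
    have e2 : ((ρ u : Mat 6) - 1) * ((ρ f : Mat 6) - 1) = 0 :=
      (hu.mul (h1 f)).eq_zero (by norm_num)
    have e3 := alg6 (ρ f : Mat 6) (ρ u : Mat 6)
    rw [e1, e2, sub_zero] at e3
    exact sub_eq_zero.mp e3
  have hUle : U ≤ (Subgroup.centralizer (Set.range ρ)).comap ρ := by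
    unfold U
    refine sup_le ?_ (sup_le ?_ ?_)
    · rw [Subgroup.closure_le]
      rintro _ ⟨x, rfl⟩
      have h7 : ρ (x ^ 7) = 1 := by
        apply Units.ext
        rw [map_pow, Units.val_pow_eq_pow_val, Units.val_one]
        have : Fact (Nat.Prime 7) := ⟨by norm_num⟩
        apply alg10
        have hX1 := h1 x
        rw [alg7, (((hX1.mul hX1).mul (hX1.mul hX1)).mul (hX1.mul hX1)).eq_zero (by norm_num),
          zero_mul]
      rw [SetLike.mem_coe, Subgroup.mem_comap, h7]
      exact Subgroup.one_mem _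
    · intro u hu
      rw [Subgroup.mem_comap, Subgroup.mem_centralizer_iff]
      rintro _ ⟨f, rfl⟩
      exact hcomm u f (hD2 u hu)
    · intro u hu
      rw [Subgroup.mem_comap, Subgroup.mem_centralizer_iff]
      rintro _ ⟨f, rfl⟩
      exact hcomm u f (hF F 6 ρ h1 4 u hu)
  have hV : V ≤ ρ.ker := by
    unfold V
    rw [Subgroup.commutator_le]
    intro g hg f _
    rw [MonoidHom.mem_ker, map_commutatorElement, commutatorElement_eq_one_iff_mul_comm]
    have := hUle hg
    rw [Subgroup.mem_comap, Subgroup.mem_centralizer_iff] at this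
    exact (this (ρ f) ⟨f, rfl⟩).symm
  intro v hv
  exact hV hv

end Pool.Agent.Q121.VG
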